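import Mathlib

/-!
# A Banach space with an extended M-basis which contains `ℓ^∞`
-/

open Filter Topology
open scoped ENNReal

namespace Pool.Agent.Results.MP_810de6_an.MBasisEllInfty

/-- The space `ℓ^∞` of bounded sequences of scalars with the supremum norm. -/
abbrev EllInfty (𝕜 : Type) [RCLike 𝕜] : Type := lp (fun _ : ℕ => 𝕜) ∞

/-- The family `x` is an extended M-basis of `E` with associated functionals `f`: the system is
biorthogonal, `x` spans a dense subspace, and the functionals `f i` separate the points of `E`. -/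
structure IsExtendedMBasis {𝕜 E I : Type} [RCLike 𝕜] [NormedAddCommGroup E] [NormedSpace 𝕜 E]
    (x : I → E) (f : I → StrongDual 𝕜 E) : Prop where
  biorth_self : ∀ i, f i (x i) = 1
  biorth_ne : ∀ i j, i ≠ j → f j (x i) = 0
  dense : Dense ((Submodule.span 𝕜 (Set.range x) : Submodule 𝕜 E) : Set E)
  total : ∀ v : E, (∀ i, f i v = 0) → v = 0

section

variable (𝕜 : Type) [RCLike 𝕜]

/-- The closed unit ball of `ℓ^∞`, as an index set. -/
abbrev Z : Type := {z : EllInfty 𝕜 // ‖z‖ ≤ 1}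

/-- `ℓ^2`. -/
abbrev H : Type := lp (fun _ : ℕ => 𝕜) 2

/-- The `ℓ^1`-sum of copies of `ℓ^2`, one for every element of the unit ball of `ℓ^∞`. -/
abbrev Y : Type := lp (fun _ : Z 𝕜 => H 𝕜) 1

/-- The unit vector `u_n` of `ℓ^∞`. -/
noncomputable def u (n : ℕ) : EllInfty 𝕜 := lp.single ∞ n (1 : 𝕜)

open Classical in
/-- The unit vector of `Y` with index `(z, m)`. -/
noncomputable def w (z : Z 𝕜) (m : ℕ) : Y 𝕜 := lp.single 1 z (lp.single 2 m (1 : 𝕜))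

/-- The vector of `ℓ^∞` obtained from `z` by replacing the first `m` coordinates by zero. -/
noncomputable def cut (z : Z 𝕜) (m : ℕ) : EllInfty 𝕜 :=
  z.1 - ∑ n ∈ Finset.range m, (z.1 n) • u 𝕜 n

theorem u_apply (n k : ℕ) : (u 𝕜 n : ℕ → 𝕜) k = if k = n then 1 else 0 := by
  simp [u, lp.single_apply, Pi.single_apply]

theorem cut_apply (z : Z 𝕜) (m k : ℕ) : (cut 𝕜 z m : ℕ → 𝕜) k = if m ≤ k then z.1 k else 0 := by
  have h1 : (cut 𝕜 z m : ℕ → 𝕜) k = z.1 k - ∑ n ∈ Finset.range m, z.1 n * (u 𝕜 n : ℕ → 𝕜) k := by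
    simp only [cut, lp.coeFn_sub, lp.coeFn_sum, lp.coeFn_smul, Pi.sub_apply, Finset.sum_apply,
      Pi.smul_apply, smul_eq_mul]
  rw [h1]
  simp only [u_apply, mul_ite, mul_one, mul_zero]
  rw [Finset.sum_ite_eq]
  by_cases h : m ≤ k
  · rw [if_neg (by simpa using h), if_pos h, sub_zero]
  · rw [if_pos (by simpa using h), if_neg h, sub_self]

/-- The coordinate functional of `Y` with index `(z, m)`. -/
noncomputable def wc (z : Z 𝕜) (m : ℕ) : StrongDual 𝕜 (Y 𝕜) :=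
  (lp.evalCLM 𝕜 (fun _ : ℕ => 𝕜) 2 m).comp (lp.evalCLM 𝕜 (fun _ : Z 𝕜 => H 𝕜) 1 z)

theorem wc_apply (z : Z 𝕜) (m : ℕ) (y : Y 𝕜) : wc 𝕜 z m y = (y z : ℕ → 𝕜) m := rfl

theorem norm_one_eq (y : Y 𝕜) : ‖y‖ = ∑' z, ‖y z‖ := by
  rw [lp.norm_eq_tsum_rpow (by simp)]
  simp only [ENNReal.toReal_one, Real.rpow_one, div_one]

theorem summable_norm (y : Y 𝕜) : Summable fun z => ‖y z‖ := by
  simpa using (lp.memℓp y).summable (by simp)

theorem term_le (y : Y 𝕜) (n : ℕ) (z : Z 𝕜) :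
    ‖z.1 n * ∑ m ∈ Finset.range (n + 1), (y z : ℕ → 𝕜) m‖ ≤ (n + 1) * ‖y z‖ := by
  have h1 : ‖(z.1 : ℕ → 𝕜) n‖ ≤ 1 := (lp.norm_apply_le_norm (by simp) z.1 n).trans z.2
  have h2 : ‖∑ m ∈ Finset.range (n + 1), (y z : ℕ → 𝕜) m‖ ≤ (n + 1) * ‖y z‖ := by
    refine (norm_sum_le _ _).trans ?_
    refine (Finset.sum_le_card_nsmul _ _ ‖y z‖ fun m _ =>
      lp.norm_apply_le_norm (by simp) (y z) m).trans ?_
    simp
  rw [norm_mul]
  calc ‖(z.1 : ℕ → 𝕜) n‖ * ‖∑ m ∈ Finset.range (n + 1), (y z : ℕ → 𝕜) m‖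
      ≤ 1 * ((n + 1) * ‖y z‖) := by gcongr
    _ = (n + 1) * ‖y z‖ := one_mul _

theorem summable_term (y : Y 𝕜) (n : ℕ) :
    Summable fun z : Z 𝕜 => z.1 n * ∑ m ∈ Finset.range (n + 1), (y z : ℕ → 𝕜) m :=
  Summable.of_norm_bounded ((summable_norm 𝕜 y).mul_left ((n : ℝ) + 1)) fun z => term_le 𝕜 y n z

/-- The functional `y ↦ ∑_z z(n) ∑_{m ≤ n} y_z(m)` on `Y`. -/
noncomputable def G (n : ℕ) : StrongDual 𝕜 (Y 𝕜) :=
  LinearMap.mkContinuous
    { toFun := fun y => ∑' z : Z 𝕜, z.1 n * ∑ m ∈ Finset.range (n + 1), (y z : ℕ → 𝕜) m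
      map_add' := fun y y' => by
        rw [← (summable_term 𝕜 y n).tsum_add (summable_term 𝕜 y' n)]
        refine tsum_congr fun z => ?_
        rw [← mul_add, ← Finset.sum_add_distrib]
        rfl
      map_smul' := fun c y => by
        rw [RingHom.id_apply, smul_eq_mul, ← tsum_mul_left]
        refine tsum_congr fun z => ?_
        rw [mul_left_comm, Finset.mul_sum (Finset.range (n + 1)) _ c]
        rfl }
    ((n : ℝ) + 1) (fun y => by
      change ‖∑' z : Z 𝕜, z.1 n * ∑ m ∈ Finset.range (n + 1), (y z : ℕ → 𝕜) m‖ ≤ _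
      rw [norm_one_eq, ← tsum_mul_left]
      exact tsum_of_norm_bounded ((summable_norm 𝕜 y).mul_left ((n : ℝ) + 1)).hasSum
        fun z => term_le 𝕜 y n z)

theorem G_apply (n : ℕ) (y : Y 𝕜) :
    G 𝕜 n y = ∑' z : Z 𝕜, z.1 n * ∑ m ∈ Finset.range (n + 1), (y z : ℕ → 𝕜) m := rfl

theorem w_apply_self (z : Z 𝕜) (m : ℕ) : (w 𝕜 z m) z = lp.single 2 m (1 : 𝕜) := by
  classical
  exact lp.single_apply_self _ _ _

theorem w_apply_ne (z z' : Z 𝕜) (m : ℕ) (h : z' ≠ z) : (w 𝕜 z m) z' = 0 := by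
  classical
  exact lp.single_apply_ne _ _ _ h

open Classical in
theorem wc_w (z z' : Z 𝕜) (m m' : ℕ) :
    wc 𝕜 z' m' (w 𝕜 z m) = if z' = z ∧ m' = m then 1 else 0 := by
  classical
  rw [wc_apply]
  by_cases h : z' = z
  · subst h
    rw [w_apply_self]
    simp [lp.single_apply, Pi.single_apply]
  · rw [w_apply_ne _ _ _ _ h]
    simp [h]

theorem G_w (n : ℕ) (z : Z 𝕜) (m : ℕ) : G 𝕜 n (w 𝕜 z m) = if m ≤ n then z.1 n else 0 := by
  classical
  rw [G_apply, tsum_eq_single z]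
  · rw [w_apply_self]
    simp only [lp.single_apply, Pi.single_apply]
    rw [Finset.sum_ite_eq']
    by_cases h : m ≤ n
    · rw [if_pos (by simpa [Nat.lt_succ_iff] using h), if_pos h, mul_one]
    · rw [if_neg (by simpa [Nat.lt_succ_iff] using h), if_neg h, mul_zero]
  · intro z' hz'
    rw [w_apply_ne _ _ _ _ hz']
    simp

/-- The space `E = ℓ^∞ × Y`. -/
abbrev E : Type := EllInfty 𝕜 × Y 𝕜

/-- The vectors of the M-basis. -/
noncomputable def xs : ℕ ⊕ (Z 𝕜 × ℕ) → E 𝕜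
  | .inl n => (u 𝕜 n, 0)
  | .inr (z, m) => (cut 𝕜 z m, w 𝕜 z m)

/-- The associated functionals of the M-basis. -/
noncomputable def fs : ℕ ⊕ (Z 𝕜 × ℕ) → StrongDual 𝕜 (E 𝕜)
  | .inl n => (lp.evalCLM 𝕜 (fun _ : ℕ => 𝕜) ∞ n).comp (ContinuousLinearMap.fst 𝕜 _ _) -
      (G 𝕜 n).comp (ContinuousLinearMap.snd 𝕜 _ _)
  | .inr (z, m) => (wc 𝕜 z m).comp (ContinuousLinearMap.snd 𝕜 _ _)

theorem fs_inl (n : ℕ) (a : EllInfty 𝕜) (y : Y 𝕜) :
    fs 𝕜 (.inl n) (a, y) = (a : ℕ → 𝕜) n - G 𝕜 n y := rfl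

theorem fs_inr (z : Z 𝕜) (m : ℕ) (a : EllInfty 𝕜) (y : Y 𝕜) :
    fs 𝕜 (.inr (z, m)) (a, y) = wc 𝕜 z m y := rfl

/-- A bounded functional on `ℓ^2` which takes the same value at all unit vectors vanishes there. -/
theorem const_zero (Φ : StrongDual 𝕜 (H 𝕜)) (c : 𝕜)
    (h : ∀ m : ℕ, Φ (lp.single 2 m (1 : 𝕜)) = c) : c = 0 := by
  have h1 : ∀ k : ℕ, (k : ℝ) * ‖c‖ ≤ ‖Φ‖ * Real.sqrt k := by
    intro k
    have h2 : Φ (∑ m ∈ Finset.range k, lp.single 2 m (1 : 𝕜)) = (k : 𝕜) * c := by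
      rw [map_sum]
      simp [h]
    have h3 : ‖(∑ m ∈ Finset.range k, lp.single 2 m (1 : 𝕜) : H 𝕜)‖ = Real.sqrt k := by
      have h4 := lp.norm_sum_single (p := 2) (by simp) (fun _ : ℕ => (1 : 𝕜)) (Finset.range k)
      simp only [norm_one, ENNReal.toReal_ofNat, Real.rpow_two, one_pow, Finset.sum_const,
        Finset.card_range, nsmul_eq_mul, mul_one] at h4
      rw [← h4, Real.sqrt_sq (norm_nonneg _)]
    have h5 := Φ.le_opNorm (∑ m ∈ Finset.range k, lp.single 2 m (1 : 𝕜))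
    rw [h2, h3, norm_mul] at h5
    simpa using h5
  by_contra hc
  have hc' : 0 < ‖c‖ := norm_pos_iff.2 hc
  obtain ⟨k, hk⟩ := exists_nat_gt ((‖Φ‖ / ‖c‖) ^ 2)
  have hk0 : (0 : ℝ) < k := lt_of_le_of_lt (sq_nonneg _) hk
  have h6 : ‖Φ‖ / ‖c‖ < Real.sqrt k := Real.lt_sqrt_of_sq_lt hk
  have h7 : ‖Φ‖ < Real.sqrt k * ‖c‖ := (div_lt_iff₀ hc').1 h6
  have h8 := h1 k
  have h9 : (0 : ℝ) < Real.sqrt k := Real.sqrt_pos.2 hk0
  have h10 : Real.sqrt k * Real.sqrt k = k := Real.mul_self_sqrt hk0.le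
  nlinarith

theorem dense_of_dual {F : Type} [NormedAddCommGroup F] [NormedSpace 𝕜 F] (S : Submodule 𝕜 F)
    (h : ∀ Ψ : StrongDual 𝕜 F, (∀ x ∈ S, Ψ x = 0) → Ψ = 0) : Dense (S : Set F) := by
  intro v
  by_contra hv
  have hc : IsClosed ((S.topologicalClosure : Submodule 𝕜 F) : Set F) :=
    S.isClosed_topologicalClosure
  have hv' : S.topologicalClosure.mkQ v ≠ 0 := by
    rw [Submodule.mkQ_apply, Ne, Submodule.Quotient.mk_eq_zero]
    exact hv
  obtain ⟨g, -, hg⟩ := exists_dual_vector 𝕜 (S.topologicalClosure.mkQ v) (norm_ne_zero_iff.2 hv')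
  have h0 := h (g.comp S.topologicalClosure.mkQL) (fun x hx => by
    have hx0 : S.topologicalClosure.mkQ x = 0 := by
      rw [Submodule.mkQ_apply, Submodule.Quotient.mk_eq_zero]
      exact S.le_topologicalClosure hx
    change g (S.topologicalClosure.mkQ x) = 0
    rw [hx0, map_zero])
  have h1 : g (S.topologicalClosure.mkQ v) = 0 := by
    have := congrArg (fun Ψ : StrongDual 𝕜 F => Ψ v) h0
    exact this
  rw [h1] at hg
  have : ‖S.topologicalClosure.mkQ v‖ = 0 := by exact_mod_cast hg.symm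
  exact hv' (norm_eq_zero.1 this)

theorem Psi_zero (Ψ : StrongDual 𝕜 (E 𝕜)) (h : ∀ i, Ψ (xs 𝕜 i) = 0) : Ψ = 0 := by
  classical
  let Ψ1 : StrongDual 𝕜 (EllInfty 𝕜) := Ψ.comp (ContinuousLinearMap.inl 𝕜 _ _)
  let Ψ2 : StrongDual 𝕜 (Y 𝕜) := Ψ.comp (ContinuousLinearMap.inr 𝕜 _ _)
  have hsplit : ∀ a y, Ψ (a, y) = Ψ1 a + Ψ2 y := by
    intro a y
    change Ψ (a, y) = Ψ (a, 0) + Ψ (0, y)
    rw [← map_add]
    simp
  have h1 : ∀ n, Ψ1 (u 𝕜 n) = 0 := fun n => h (.inl n)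
  have h3 : ∀ z m, Ψ1 (cut 𝕜 z m) = Ψ1 z.1 := by
    intro z m
    rw [cut, map_sub, map_sum]
    simp [h1]
  have h2 : ∀ z m, Ψ2 (w 𝕜 z m) = - Ψ1 z.1 := by
    intro z m
    have := h (.inr (z, m))
    change Ψ (cut 𝕜 z m, w 𝕜 z m) = 0 at this
    rw [hsplit, h3] at this
    exact eq_neg_of_add_eq_zero_right this
  have h4 : ∀ z : Z 𝕜, Ψ1 z.1 = 0 := by
    intro z
    have := const_zero 𝕜 (Ψ2.comp (lp.singleContinuousLinearMap 𝕜 (fun _ : Z 𝕜 => H 𝕜) 1 z))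
      (- Ψ1 z.1) (fun m => h2 z m)
    exact neg_eq_zero.1 this
  have h5 : ∀ a, Ψ1 a = 0 := by
    intro a
    by_cases ha : a = 0
    · rw [ha, map_zero]
    · have hn : ‖a‖ ≠ 0 := norm_ne_zero_iff.2 ha
      have hz : ‖((‖a‖⁻¹ : ℝ) : 𝕜) • a‖ ≤ 1 := by
        rw [norm_smul]
        simp [hn]
      have h6 := h4 ⟨_, hz⟩
      rw [map_smul, smul_eq_mul] at h6
      rcases mul_eq_zero.1 h6 with h7 | h7
      · exact absurd (by exact_mod_cast h7) (inv_ne_zero hn)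
      · exact h7
  have h8 : Ψ2 = 0 := by
    refine lp.ext_continuousLinearMap (by simp) fun z => ?_
    refine lp.ext_continuousLinearMap (by simp) fun m => ?_
    ext
    change Ψ2 (w 𝕜 z m) = 0
    rw [h2, h4, neg_zero]
  refine ContinuousLinearMap.ext fun v => ?_
  obtain ⟨a, y⟩ := v
  rw [hsplit, h5, h8]
  simp

theorem isMBasis : IsExtendedMBasis (xs 𝕜) (fs 𝕜) where
  biorth_self i := by
    rcases i with n | ⟨z, m⟩
    · change fs 𝕜 (.inl n) (u 𝕜 n, 0) = 1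
      rw [fs_inl, u_apply, map_zero]
      simp
    · change fs 𝕜 (.inr (z, m)) (cut 𝕜 z m, w 𝕜 z m) = 1
      rw [fs_inr, wc_w]
      simp
  biorth_ne i j hij := by
    rcases i with n | ⟨z, m⟩ <;> rcases j with n' | ⟨z', m'⟩
    · change fs 𝕜 (.inl n') (u 𝕜 n, 0) = 0
      rw [fs_inl, u_apply, map_zero, if_neg, sub_zero]
      rintro rfl
      exact hij rfl
    · change fs 𝕜 (.inr (z', m')) (u 𝕜 n, 0) = 0
      rw [fs_inr, map_zero]
    · change fs 𝕜 (.inl n') (cut 𝕜 z m, w 𝕜 z m) = 0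
      rw [fs_inl, cut_apply, G_w, sub_self]
    · change fs 𝕜 (.inr (z', m')) (cut 𝕜 z m, w 𝕜 z m) = 0
      rw [fs_inr, wc_w, if_neg]
      rintro ⟨rfl, rfl⟩
      exact hij rfl
  dense := dense_of_dual 𝕜 _ fun Ψ hΨ => Psi_zero 𝕜 Ψ fun i =>
    hΨ _ (Submodule.subset_span ⟨i, rfl⟩)
  total v hv := by
    obtain ⟨a, y⟩ := v
    have hy : y = 0 := by
      ext z m
      exact hv (.inr (z, m))
    subst hy
    have ha : a = 0 := by
      ext n
      have := hv (.inl n)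
      rw [fs_inl, map_zero, sub_zero] at this
      exact this
    subst ha
    rfl

end

/-- Over `𝕜 = ℝ` and over `𝕜 = ℂ` there is a Banach space `E` with an extended M-basis which has a
closed linear subspace `G` isomorphic to `ℓ^∞`. -/
theorem result (𝕜 : Type) [RCLike 𝕜] :
    ∃ (E : Type) (_ : NormedAddCommGroup E) (_ : NormedSpace 𝕜 E) (_ : CompleteSpace E),
      (∃ (I : Type) (x : I → E) (f : I → StrongDual 𝕜 E), IsExtendedMBasis x f) ∧
      ∃ G : Submodule 𝕜 E, IsClosed (G : Set E) ∧ Nonempty (EllInfty 𝕜 ≃L[𝕜] G) := by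
  refine ⟨E 𝕜, inferInstance, inferInstance, inferInstance, ⟨_, xs 𝕜, fs 𝕜, isMBasis 𝕜⟩, ?_⟩
  let T : EllInfty 𝕜 →L[𝕜] E 𝕜 := ContinuousLinearMap.inl 𝕜 (EllInfty 𝕜) (Y 𝕜)
  have hinj : Function.Injective T := fun a b hab => (Prod.ext_iff.1 hab).1
  have hclo : IsClosed (Set.range T) := by
    have : Set.range T = {v : E 𝕜 | v.2 = 0} := by
      ext v
      constructor
      · rintro ⟨a, rfl⟩
        rfl
      · intro hv
        exact ⟨v.1, Prod.ext rfl hv.symm⟩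
    rw [this]
    exact isClosed_eq continuous_snd continuous_const
  exact ⟨T.range, hclo, ⟨T.equivRange hinj hclo⟩⟩

end Pool.Agent.Results.MP_810de6_an.MBasisEllInfty
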